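import Pool.Agent.Q117.LF.Stm8
import Pool.Agent.Q257.LF.Fsv

/-! Project LF (helper117), part 8, job FSW (helper38). -/

set_option autoImplicit false

namespace Pool.Agent.Q38.LF

open Finset Filter
open Pool.Agent.Q117.LF Pool.Agent.Q257.LF

theorem AdmS_en {E : Finset ℤ} (hE : AdmZ E) : AdmS (fun _ : Fin E.card => 1) (en E) := by
  intro p hp
  obtain ⟨r, hr⟩ := hE p hp
  have hp0 : (0 : ℤ) < p := by exact_mod_cast hp.pos
  refine ⟨(r % (p : ℤ)).toNat, fun l hl => hr (en E l) (en_mem E l) ?_⟩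
  unfold fm at hl
  have h1 : 0 ≤ r % (p : ℤ) := Int.emod_nonneg _ hp0.ne'
  rw [Int.toNat_of_nonneg h1, Nat.cast_one, one_mul] at hl
  have h2 : r + en E l = r % (p : ℤ) + en E l + p * (r / p) := by
    have := Int.emod_add_mul_ediv r p
    linarith
  rw [h2]
  exact dvd_add hl (dvd_mul_right _ _)

theorem VF_nonneg (y : ℕ) (E : Finset ℤ) : 0 ≤ VF y E := by
  rw [VF_VN]
  unfold VN
  refine Finset.prod_nonneg fun p hp => ?_
  have hp0 : (0 : ℝ) < p := by exact_mod_cast (Finset.mem_filter.1 hp).2.pos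
  rw [sub_nonneg, div_le_one hp0]
  unfold om
  have h := Finset.card_filter_le (range p) (fun n : ℕ => ∃ l, (p : ℤ) ∣ fm (fun _ : Fin E.card => 1) (en E) l n)
  rw [Finset.card_range] at h
  exact_mod_cast h

theorem exists_pos_lb {ι : Type*} [Finite ι] (f : ι → ℝ) (hf : ∀ i, 0 < f i) : ∃ c : ℝ, 0 < c ∧ ∀ i, c ≤ f i := by
  cases isEmpty_or_nonempty ι
  · exact ⟨1, one_pos, fun i => isEmptyElim i⟩
  · obtain ⟨i₀, hi₀⟩ := Finite.exists_min f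
    exact ⟨f i₀, hf i₀, hi₀⟩

/-- the data -/
abbrev Dt (k : ℕ) : Type := Σ r : Fin (k + 1), Fin r × Fin r

theorem fsw : St_FSW := by
  classical
  intro hN hV k g F hF
  choose C hC hCV using fun γ : Fin g => VF_up hV (F γ)
  obtain ⟨G, hG⟩ : ∃ G : Finset (Fin g), G = univ.filter (fun γ => AdmZ (F γ)) := ⟨_, rfl⟩
  have hmemG : ∀ γ, γ ∈ G ↔ AdmZ (F γ) := fun γ => by rw [hG]; simp
  obtain ⟨idx, hidx⟩ : ∃ idx : Fin G.card → Fin g, (∀ i, AdmZ (F (idx i))) ∧ ∀ γ, AdmZ (F γ) → ∃ i, idx i = γ :=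
    ⟨fun i => (G.equivFin.symm i).1, fun i => (hmemG _).1 (G.equivFin.symm i).2, fun γ hγ => ⟨G.equivFin ⟨γ, (hmemG γ).2 hγ⟩, by simp⟩⟩
  obtain ⟨hidxA, hidxS⟩ := hidx
  -- the theorem for all the data
  have hNN : ∀ D : Dt k, ∃ t : ℕ, D.2.1 ≠ D.2.2 → 1 ≤ t ∧ ∀ T : ℕ, t ≤ T → ∃ c : ℝ, 0 < c ∧ ∃ ν : ℝ, 0 < ν ∧ ∃ X0 : ℝ, ∀ X : ℝ, X0 ≤ X →
      ∀ be : Fin D.1 → ℤ, (∀ l, |(be l : ℝ)| ≤ (1 : ℕ) * X) → X / (1 : ℕ) ≤ (1 : ℕ) * X + be D.2.1 →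
        (∀ l m, l ≠ m → ((1 : ℕ) : ℤ) * be m ≠ (1 : ℕ) * be l) → AdmS (fun _ => 1) be →
        ∀ be' : (γ : Fin G.card) → Fin (F (idx γ)).card → ℤ, (∀ γ x, |(be' γ x : ℝ)| ≤ (1 : ℕ) * X) → (∀ γ, AdmS (fun _ => 1) (be' γ)) →
        ∀ L : Fin G.card → ℝ, (∀ γ, 0 ≤ L γ ∧ L γ ≤ X ∧ L γ * VN ⌊X⌋₊ (fun _ => 1) (be' γ) ≤ ν) → ∀ z : ℝ,
          X ^ (1 / (T : ℝ)) ≤ z → z ≤ X ^ (1 / (t : ℝ)) →
          c * (X * VN ⌊X⌋₊ (fun _ => 1) be) ≤ ((PtsW 1 z X (fun _ => 1) be D.2.1 D.2.2 L (fun γ => (F (idx γ)).card) (fun _ _ => 1) be').card : ℝ) := by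
    intro D
    by_cases hD : D.2.1 = D.2.2
    · exact ⟨0, fun h => absurd hD h⟩
    · obtain ⟨t, ht⟩ := hN D.1 (fun _ => 1) (fun _ => le_rfl) G.card (fun γ => (F (idx γ)).card) (fun _ _ => 1)
        (fun γ => Finset.card_pos.2 (hF _)) (fun _ _ => le_rfl) 1 le_rfl D.2.1 D.2.2 hD
      exact ⟨t, fun _ => ht⟩
  choose td htd using hNN
  obtain ⟨t0, ht0⟩ : ∃ t0 : ℕ, ∀ D, td D ≤ t0 := by
    obtain ⟨M, hM⟩ := (Set.finite_range td).bddAbove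
    exact ⟨M, fun D => hM ⟨D, rfl⟩⟩
  obtain ⟨t, ht1, htT⟩ : ∃ t : ℕ, 1 ≤ t ∧ ∀ D, td D ≤ t := ⟨t0 + 1, by omega, fun D => (ht0 D).trans (by omega)⟩
  have hcc : ∀ D : Dt k, ∃ c : ℝ, 0 < c ∧ ∃ ν : ℝ, 0 < ν ∧ ∃ X0 : ℝ, D.2.1 ≠ D.2.2 → 1 ≤ td D ∧ ∀ X : ℝ, X0 ≤ X →
      ∀ be : Fin D.1 → ℤ, (∀ l, |(be l : ℝ)| ≤ (1 : ℕ) * X) → X / (1 : ℕ) ≤ (1 : ℕ) * X + be D.2.1 →
        (∀ l m, l ≠ m → ((1 : ℕ) : ℤ) * be m ≠ (1 : ℕ) * be l) → AdmS (fun _ => 1) be →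
        ∀ be' : (γ : Fin G.card) → Fin (F (idx γ)).card → ℤ, (∀ γ x, |(be' γ x : ℝ)| ≤ (1 : ℕ) * X) → (∀ γ, AdmS (fun _ => 1) (be' γ)) →
        ∀ L : Fin G.card → ℝ, (∀ γ, 0 ≤ L γ ∧ L γ ≤ X ∧ L γ * VN ⌊X⌋₊ (fun _ => 1) (be' γ) ≤ ν) → ∀ z : ℝ,
          X ^ (1 / (t : ℝ)) ≤ z → z ≤ X ^ (1 / (td D : ℝ)) →
          c * (X * VN ⌊X⌋₊ (fun _ => 1) be) ≤ ((PtsW 1 z X (fun _ => 1) be D.2.1 D.2.2 L (fun γ => (F (idx γ)).card) (fun _ _ => 1) be').card : ℝ) := by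
    intro D
    by_cases hD : D.2.1 = D.2.2
    · exact ⟨1, one_pos, 1, one_pos, 0, fun h => absurd hD h⟩
    · obtain ⟨h1, h2⟩ := htd D hD
      obtain ⟨c, hc, ν, hν, X0, h3⟩ := h2 t (htT D)
      exact ⟨c, hc, ν, hν, X0, fun _ => ⟨h1, h3⟩⟩
  choose cd hcd νd hνd Xd hXd using hcc
  obtain ⟨c, hc, hcle⟩ := exists_pos_lb cd hcd
  obtain ⟨ν₁, hν₁, hνle⟩ := exists_pos_lb νd hνd
  obtain ⟨X1, hX1le⟩ : ∃ X1 : ℝ, ∀ D, Xd D ≤ X1 := by
    obtain ⟨M, hM⟩ := (Set.finite_range Xd).bddAbove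
    exact ⟨M, fun D => hM ⟨D, rfl⟩⟩
  have hSC : 0 ≤ ∑ γ, C γ * 2 ^ (F γ).card := Finset.sum_nonneg fun γ _ => by have := hC γ; positivity
  obtain ⟨ν, hνe⟩ : ∃ ν : ℝ, ν = ν₁ / (1 + ∑ γ, C γ * 2 ^ (F γ).card) := ⟨_, rfl⟩
  have hν : 0 < ν := by rw [hνe]; positivity
  -- the primes of the inadmissible members
  have hP : ∀ γ : Fin g, ∃ p : ℕ, ¬ AdmZ (F γ) → p.Prime ∧ ∀ r : ℤ, ∃ e ∈ F γ, (p : ℤ) ∣ r + e := by
    intro γ
    by_cases h : AdmZ (F γ)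
    · exact ⟨0, fun h' => absurd h h'⟩
    · unfold AdmZ at h
      push Not at h
      obtain ⟨p, hp, hr⟩ := h
      exact ⟨p, fun _ => ⟨hp, hr⟩⟩
  choose P hP using hP
  have hevs : ∀ᶠ X : ℝ in atTop, (∀ γ, (((P γ : ℝ)) ^ t ≤ X)) ∧ ∀ γ, ∀ f ∈ F γ, |(f : ℝ)| ≤ X := by
    refine (eventually_all.2 fun γ => eventually_ge_atTop _).and (eventually_all.2 fun γ => ?_)
    exact (Finset.eventually_all (F γ)).2 fun f _ => eventually_ge_atTop _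
  have hevL : ∀ᶠ X : ℝ in atTop, ∀ γ : Fin g, ν * Real.log X ^ (F γ).card ≤ X := eventually_all.2 fun γ => ev_log _ ν
  obtain ⟨X0, hX0⟩ := eventually_atTop.1 (hevL.and (hevs.and ((eventually_ge_atTop X1).and
    ((eventually_ge_atTop (Real.exp 1)).and (eventually_ge_atTop (4 : ℝ))))))
  refine ⟨t, ht1, c, hc, ν, hν, X0, fun X hXX E hE hEX hEa e₁ he₁ e₂ he₂ hne => ?_⟩
  obtain ⟨hL, ⟨hPX, hfX⟩, hX1, hXe, hX4⟩ := hX0 X hXX
  have hX0' : 0 < X := by linarith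
  have hl : 1 ≤ Real.log X := by rw [Real.le_log_iff_exp_le hX0']; exact hXe
  obtain ⟨i, hi⟩ := en_surj E he₁
  obtain ⟨j, hj⟩ := en_surj E he₂
  have hij : i ≠ j := fun h => hne (by rw [← hi, ← hj, h])
  obtain ⟨D, hD⟩ : ∃ D : Dt k, D = ⟨⟨E.card, by omega⟩, (i, j)⟩ := ⟨_, rfl⟩
  have hDX := hXd D
  have hDt := htT D
  have hDc := hcle D
  have hDν := hνle D
  have hDX1 := hX1le D
  subst hD
  obtain ⟨htd1, hDX2⟩ := hDX hij
  have h1 := hDX2 X (hDX1.trans hX1) (en E) (fun l => by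
      obtain ⟨h1, h2⟩ := hEX _ (en_mem E l)
      rw [Nat.cast_one, one_mul, abs_of_nonneg (by exact_mod_cast h1)]
      exact h2) (by
      have : (0 : ℝ) ≤ en E i := by exact_mod_cast (hEX _ (en_mem E i)).1
      rw [Nat.cast_one, div_one, one_mul]
      show X ≤ X + (en E i : ℝ)
      linarith) (fun l m hlm => by
      rw [Nat.cast_one, one_mul, one_mul]
      exact fun h => hlm (en_inj E h).symm) (AdmS_en hEa)
    (fun γ => en (F (idx γ))) (fun γ x => by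
      rw [Nat.cast_one, one_mul]
      exact hfX _ _ (en_mem _ x)) (fun γ => AdmS_en (hidxA γ))
    (fun γ => ν * Real.log X ^ (F (idx γ)).card) (fun γ => ⟨by positivity, hL _, by
      have h2 : 2 ≤ ⌊X⌋₊ := Nat.le_floor (by push_cast; linarith)
      refine le_trans ?_ hDν
      rw [← VF_VN]
      refine (LV_le hν.le (hC _).le hXe hX4 le_rfl (hCV _ _ h2)).trans ?_
      have h3 := Finset.single_le_sum (f := fun γ => C γ * 2 ^ (F γ).card) (fun γ _ => by have := hC γ; positivity)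
        (Finset.mem_univ (idx γ))
      calc ν * (C (idx γ) * 2 ^ (F (idx γ)).card) ≤ ν * (1 + ∑ γ, C γ * 2 ^ (F γ).card) :=
            mul_le_mul_of_nonneg_left (by linarith) hν.le
        _ = ν₁ := by rw [hνe]; field_simp⟩) (X ^ (1 / (t : ℝ))) le_rfl (by
      refine Real.rpow_le_rpow_of_exponent_le (by linarith) ?_
      refine one_div_le_one_div_of_le (by exact_mod_cast htd1) (by exact_mod_cast hDt))
  have h0 : c * (X * VF ⌊X⌋₊ E) ≤ cd ⟨⟨E.card, by omega⟩, (i, j)⟩ * (X * VN ⌊X⌋₊ (fun _ : Fin E.card => 1) (en E)) := by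
    rw [← VF_VN]
    exact mul_le_mul_of_nonneg_right hDc (mul_nonneg hX0'.le (VF_nonneg _ _))
  refine h0.trans (h1.trans ?_)
  have hsub : ((PtsW 1 (X ^ (1 / (t : ℝ))) X (fun _ : Fin E.card => 1) (en E) i j (fun γ => ν * Real.log X ^ (F (idx γ)).card)
      (fun γ => (F (idx γ)).card) (fun _ _ => 1) (fun γ => en (F (idx γ))) : Finset ℕ) : Set ℕ) ⊆
      SetW (X ^ (1 / (t : ℝ))) X ν E e₁ e₂ F := by
    intro n hn
    unfold PtsW fm at hn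
    rw [Finset.mem_coe, Finset.mem_filter] at hn
    obtain ⟨-, n1, n2, n3, n4, n5, n6, n7⟩ := hn
    rw [hi, Nat.cast_one, one_mul] at n3 n4
    rw [hj, Nat.cast_one, one_mul] at n5
    refine ⟨n1, by rw [Nat.cast_one, div_one] at n2; linarith, toNat_prime n3 n4, Pt_mono ?_ n5, fun e he => ?_, fun γ d hd hro => ?_⟩
    · exact Real.rpow_le_rpow_of_exponent_le (by linarith) (by norm_num)
    · obtain ⟨l, rfl⟩ := en_surj E he
      have := n6 l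
      rwa [Nat.cast_one, one_mul] at this
    · by_cases hγ : AdmZ (F γ)
      · obtain ⟨γ', rfl⟩ := hidxS γ hγ
        have h2 := n7 γ' d hd (fun x => by
          rw [Nat.cast_one, one_mul]
          exact hro _ (en_mem _ x))
        intro f hf
        obtain ⟨x, rfl⟩ := en_surj _ hf
        obtain ⟨l, -, hl2⟩ := h2 x
        rw [Nat.cast_one, one_mul] at hl2
        rw [hl2]
        exact en_mem E l
      · exfalso
        obtain ⟨hp, hr⟩ := hP γ hγ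
        obtain ⟨f, hf, hdv⟩ := hr ((n : ℤ) + d)
        have h2 := hro f hf (P γ) hp hdv
        exact absurd (rpow_ge ht1 (Nat.cast_nonneg _) (hPX γ)) (not_le.2 h2)
  have hfin : (SetW (X ^ (1 / (t : ℝ))) X ν E e₁ e₂ F).Finite := by
    refine (Finset.finite_toSet (range (⌊2 * X⌋₊ + 1))).subset fun n hn => ?_
    rw [Finset.mem_coe, Finset.mem_range, Nat.lt_succ_iff]
    exact Nat.le_floor hn.2.1
  have h2 := Set.ncard_le_ncard hsub hfin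
  rw [Set.ncard_coe_finset] at h2
  exact_mod_cast h2

end Pool.Agent.Q38.LF
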